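import Pool.Agent.Helper19.Herman.Finite

set_option autoImplicit false

namespace Pool.Agent.Results.MP_f2967f_an.FinitelyMany

open Filter Topology

/-- the conservative quadratic Hénon map `F_c (z, w) = (z² + c - w, z)`. -/
def F (c : ℂ) : ℂ × ℂ → ℂ × ℂ := fun x => (x.1 ^ 2 + c - x.2, x.1)

/-- `{F_c^n : n ≥ 1}` is a normal family on the open set `U`: every sequence of iterates has a
subsequence which either converges uniformly on compact subsets of `U` to a holomorphic map,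
or diverges to infinity uniformly on compact subsets of `U`. -/
def NormalOn (c : ℂ) (U : Set (ℂ × ℂ)) : Prop :=
  ∀ n : ℕ → ℕ, (∀ j, 1 ≤ n j) → ∃ ψ : ℕ → ℕ, StrictMono ψ ∧
    ((∃ g : ℂ × ℂ → ℂ × ℂ, DifferentiableOn ℂ g U ∧ ∀ K ⊆ U, IsCompact K →
        TendstoUniformlyOn (fun j => (F c)^[n (ψ j)]) g atTop K) ∨
      ∀ K ⊆ U, IsCompact K → ∀ R : ℝ, ∀ᶠ j in atTop, ∀ x ∈ K, R < ‖(F c)^[n (ψ j)] x‖)

/-- the Fatou set of `F_c`. -/
def Fatou (c : ℂ) : Set (ℂ × ℂ) := {p | ∃ U, IsOpen U ∧ p ∈ U ∧ NormalOn c U}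

/-- a Fatou component: a connected component of the Fatou set. -/
def IsFatouComponent (c : ℂ) (Ω : Set (ℂ × ℂ)) : Prop :=
  ∃ x ∈ Fatou c, Ω = connectedComponentIn (Fatou c) x

/-- a Siegel domain: a Fatou component on which `F_c^{n_i} → id` uniformly on compact subsets for
some sequence `n_i → ∞`. -/
def IsSiegelDomain (c : ℂ) (Ω : Set (ℂ × ℂ)) : Prop :=
  IsFatouComponent c Ω ∧ ∃ n : ℕ → ℕ, Tendsto n atTop atTop ∧ ∀ K ⊆ Ω, IsCompact K →
    TendstoUniformlyOn (fun i => (F c)^[n i]) id atTop K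

/-- the parameters `c` for which `F_c` has a point fixed by `F_c^k` in a Siegel domain. -/
def SiegelParameters (k : ℕ) : Set ℂ :=
  {c | ∃ p : ℂ × ℂ, ∃ Ω : Set (ℂ × ℂ), (F c)^[k] p = p ∧ IsSiegelDomain c Ω ∧ p ∈ Ω}

open Pool.Agent.Helper19.Herman

theorem isOpen_Fatou (c : ℂ) : IsOpen (Fatou c) := by
  rw [isOpen_iff_mem_nhds]
  rintro p ⟨U, hU, hp, hn⟩
  exact mem_of_superset (hU.mem_nhds hp) fun q hq => ⟨U, hU, hq, hn⟩

theorem bdd_of_siegel {k : ℕ} {c : ℂ} (h : c ∈ SiegelParameters k) : BddPeriodic k c := by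
  obtain ⟨p, Ω, hp, ⟨⟨x, hx, hΩ⟩, n, hn, hconv⟩, hpΩ⟩ := h
  have hopen : IsOpen Ω := by rw [hΩ]; exact (isOpen_Fatou c).connectedComponentIn
  obtain ⟨r, hr, hball⟩ := Metric.nhds_basis_closedBall.mem_iff.mp (hopen.mem_nhds hpΩ)
  have hc := hconv _ hball (isCompact_closedBall p r)
  rw [Metric.tendstoUniformlyOn_iff] at hc
  obtain ⟨N, hN⟩ := eventually_atTop.mp (hc 1 one_pos)
  refine ⟨p, hp, fun l => n (l + N), hn.comp (tendsto_add_atTop_nat N), r, ‖p‖ + r + 1, hr, ?_⟩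
  intro l y hy
  have h1 := hN (l + N) (by omega) y (Metric.mem_closedBall.mpr hy)
  simp only [id] at h1
  rw [dist_eq_norm] at h1 hy
  have e1 : (henon c)^[n (l + N)] y = (F c)^[n (l + N)] y := rfl
  rw [e1]
  calc ‖(F c)^[n (l + N)] y‖ = ‖p + (y - p) - (y - (F c)^[n (l + N)] y)‖ := by
        congr 1; abel
    _ ≤ ‖p + (y - p)‖ + ‖y - (F c)^[n (l + N)] y‖ := norm_sub_le _ _
    _ ≤ ‖p‖ + ‖y - p‖ + ‖y - (F c)^[n (l + N)] y‖ := by gcongr; exact norm_add_le _ _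
    _ ≤ ‖p‖ + r + 1 := by linarith

/-- For every period `k ≥ 1`, only finitely many parameters `c` admit a point of period
(dividing) `k` of `F_c` in a Siegel domain, and for each of them `256 k² c` is an algebraic
integer. -/
theorem result : ∀ k : ℕ, 0 < k →
    (SiegelParameters k).Finite ∧
      ∀ c ∈ SiegelParameters k, IsIntegral ℤ (256 * (k : ℂ) ^ 2 * c) := by
  intro k hk
  refine ⟨(finite_bddPeriodic k hk).subset fun c hc => bdd_of_siegel hc, fun c hc => ?_⟩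
  obtain ⟨p, hp, φ, hφ, r, M, hr, hb⟩ := bdd_of_siegel hc
  exact integral_of_bounded c k hk p hp φ hφ r M hr hb

end Pool.Agent.Results.MP_f2967f_an.FinitelyMany
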